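import Pool.Agent.Helper40.PR.Defs3
import Pool.Agent.Helper59.PR.TK2
import Pool.Agent.Helper55.PR.TK4B

/-! PR-E9B: second slot in dimension two -/

set_option autoImplicit false

namespace PR

open ContinuousLinearMap InnerProductSpace Complex

open scoped ComplexConjugate

namespace E9B

variable {H : Type*} [NormedAddCommGroup H] [InnerProductSpace ℂ H]

theorem finrank_two (hH : Dim2 H) (hH' : ¬ Dim3 H) : Module.finrank ℂ H = 2 := by
  have h1 : ¬ ((3 : ℕ) : Cardinal) ≤ Module.rank ℂ H := by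
    intro h
    obtain ⟨s, hs, hl⟩ := le_rank_iff_exists_linearIndependent_finset.1 h
    apply hH'
    exact ⟨fun i => ((s.equivFin.symm (Fin.cast hs.symm i) : s) : H),
      hl.comp _ ((Equiv.injective _).comp (Fin.cast_injective _))⟩
  have h2 : Module.rank ℂ H < ((3 : ℕ) : Cardinal) := not_le.1 h1
  have h3 : Module.Finite ℂ H := by
    rw [← Module.rank_lt_aleph0_iff]
    exact h2.trans (Cardinal.natCast_lt_aleph0 (n := 3))
  have h4 : Module.finrank ℂ H < 3 := by
    rw [← Module.finrank_eq_rank] at h2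
    exact_mod_cast h2
  obtain ⟨v, hv⟩ := hH
  have h5 := hv.fintype_card_le_finrank
  rw [Fintype.card_fin] at h5
  omega

variable [CompleteSpace H]

theorem po_test (T : H →L[ℂ] H) (x y : H) :
    sr (skb (po x y) T) =
      Rt (inner ℂ y (T x) - inner ℂ x (T y))
        (inner ℂ x x * inner ℂ y (T (T y)) - inner ℂ y (T x) * inner ℂ x (T y)) := by
  have h1 : skb (po x y) T = rk x (innerSL ℂ (adjoint T y)) + rk (-(T y)) (innerSL ℂ x) := by
    have h2 : adjoint (po x y) = po y x := by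
      symm
      rw [ContinuousLinearMap.eq_adjoint_iff]
      intro a b
      rw [po_apply, po_apply, inner_smul_left, inner_smul_right, inner_conj_symm, mul_comm]
    unfold skb
    rw [h2]
    ext z
    simp only [ContinuousLinearMap.sub_apply, ContinuousLinearMap.mul_apply, po_apply,
      ContinuousLinearMap.add_apply, rk_apply, innerSL_apply_apply, map_smul,
      ContinuousLinearMap.adjoint_inner_left]
    rw [smul_neg, sub_eq_add_neg]
  rw [h1, sr_rk_add_rk]
  simp only [innerSL_apply_apply, ContinuousLinearMap.adjoint_inner_left, map_neg, inner_neg_right]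
  congr 1
  ring

/-- the off-diagonal entries have equal moduli: the diagonal entries too -/
theorem diag {T : H →L[ℂ] H} {μ : ℂ} (hμ : μ ≠ 0)
    (h : ∀ x y : H, ‖x‖ = 1 → ‖y‖ = 1 → inner ℂ x y = 0 →
      sr (skb (po x y) T) = sr (skb (po x y) (T + μ • (1 : H →L[ℂ] H))))
    {x y : H} (hx : ‖x‖ = 1) (hy : ‖y‖ = 1) (hxy : inner ℂ x y = (0 : ℂ))
    (hspan : ∀ z : H, z = inner ℂ x z • x + inner ℂ y z • y)
    {β : ℝ} (hB : conj μ • T y + μ • adjoint T y = (β : ℂ) • y) : β = -(‖μ‖ ^ 2) := by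
  have hyx : inner ℂ y x = (0 : ℂ) := by rw [← inner_conj_symm, hxy, map_zero]
  have hxx : inner ℂ x x = (1 : ℂ) := by rw [inner_self_eq_norm_sq_to_K, hx]; simp
  have hyy : inner ℂ y y = (1 : ℂ) := by rw [inner_self_eq_norm_sq_to_K, hy]; simp
  obtain ⟨w, hw⟩ : ∃ w, w = inner ℂ x (T y) := ⟨_, rfl⟩
  obtain ⟨v, hv⟩ : ∃ v, v = inner ℂ y (T x) := ⟨_, rfl⟩
  obtain ⟨s, hs⟩ : ∃ s, s = inner ℂ y (T y) := ⟨_, rfl⟩
  have hcμ : conj μ ≠ 0 := by rwa [Ne, map_eq_zero]
  -- the off-diagonal entry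
  have h1 : conj μ * w + μ * conj v = 0 := by
    have h2 := congrArg (fun z => inner ℂ x z) hB
    simp only [inner_add_right, inner_smul_right, hxy, mul_zero,
      ContinuousLinearMap.adjoint_inner_right] at h2
    rw [← inner_conj_symm (T x) y, ← hv, ← hw] at h2
    exact h2
  -- the diagonal entry
  have h3 : conj μ * s + μ * conj s = β := by
    have h2 := congrArg (fun z => inner ℂ y z) hB
    simp only [inner_add_right, inner_smul_right, hyy, mul_one,
      ContinuousLinearMap.adjoint_inner_right] at h2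
    rw [← inner_conj_symm (T y) y, ← hs] at h2
    exact h2
  -- the square of `T`
  have hTT : inner ℂ y (T (T y)) = w * v + s ^ 2 := by
    have h4 : T y = w • x + s • y := by rw [hw, hs]; exact hspan _
    conv_lhs => rw [h4]
    rw [map_add, map_smul, map_smul, inner_add_right, inner_smul_right, inner_smul_right,
      ← hv, ← hs]
    ring
  -- the phase
  obtain ⟨θ, hθ, hθv⟩ : ∃ θ : ℂ, ‖θ‖ = 1 ∧ θ * v = conj θ * w := by
    by_cases hv0 : v = 0
    · refine ⟨1, by simp, ?_⟩
      rw [hv0, map_zero, mul_zero, add_zero] at h1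
      rw [hv0, (mul_eq_zero.1 h1).resolve_left hcμ]
      simp
    · obtain ⟨θ, hθ⟩ := IsAlgClosed.exists_pow_nat_eq (w / v) (n := 2) (by norm_num)
      have hnw : ‖w‖ = ‖v‖ := by
        have h5 : conj μ * w = -(μ * conj v) := by linear_combination h1
        have h6 := congrArg norm h5
        rw [norm_neg, norm_mul, norm_mul, RCLike.norm_conj, RCLike.norm_conj] at h6
        exact mul_left_cancel₀ (norm_ne_zero_iff.2 hμ) h6
      have h7 : ‖θ‖ ^ 2 = 1 := by
        rw [← norm_pow, hθ, norm_div, hnw, div_self (norm_ne_zero_iff.2 hv0)]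
      have h8 : ‖θ‖ = 1 := (pow_eq_one_iff_of_nonneg (norm_nonneg θ) (by norm_num)).1 h7
      refine ⟨θ, h8, ?_⟩
      have h9 : conj θ * θ = 1 := by
        rw [← Complex.normSq_eq_conj_mul_self, Complex.normSq_eq_norm_sq, h8]
        simp
      have h10 : w = θ ^ 2 * v := by rw [hθ, div_mul_cancel₀ _ hv0]
      rw [h10]
      linear_combination (-(θ * v)) * h9
  have hθθ : θ * conj θ = 1 := by
    rw [Complex.mul_conj, Complex.normSq_eq_norm_sq, hθ]
    simp
  have hT : sr (skb (po (θ • x) y) T) = √‖s ^ 2‖ := by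
    rw [po_test, ← Rt_zero_left]
    congr 1
    · rw [map_smul, inner_smul_right, inner_smul_left, ← hv, ← hw, hθv, sub_self]
    · rw [map_smul, inner_smul_right, inner_smul_left, inner_smul_left, inner_smul_right, ← hv,
        ← hw, hTT, hxx]
      linear_combination (s ^ 2) * hθθ
  have hT' : sr (skb (po (θ • x) y) (T + μ • (1 : H →L[ℂ] H))) = √‖(s + μ) ^ 2‖ := by
    rw [po_test, ← Rt_zero_left]
    have e1 : ∀ z : H, (T + μ • (1 : H →L[ℂ] H)) z = T z + μ • z := fun z => rfl
    congr 1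
    · rw [e1, e1, inner_add_right, inner_add_right, map_smul, inner_smul_right, inner_smul_left,
        inner_smul_right, inner_smul_right, inner_smul_left, inner_smul_right, ← hv, ← hw, hθv,
        hxy, hyx]
      ring
    · simp only [e1, map_add, map_smul, inner_add_right, inner_smul_right, inner_smul_left, hxx, hyy,
        hxy, hyx, ← hv, ← hw, ← hs, hTT]
      linear_combination (s + μ) ^ 2 * hθθ
  have hfin := h (θ • x) y (by rw [norm_smul, hθ, hx, one_mul]) hy
    (by rw [inner_smul_left, hxy, mul_zero])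
  rw [hT, hT', Real.sqrt_inj (norm_nonneg _) (norm_nonneg _), norm_pow, norm_pow] at hfin
  have h11 : (‖s + μ‖ ^ 2 : ℝ) = ‖s‖ ^ 2 + β + ‖μ‖ ^ 2 := by
    have h12 : ((‖s + μ‖ ^ 2 : ℝ) : ℂ) = ((‖s‖ ^ 2 + β + ‖μ‖ ^ 2 : ℝ) : ℂ) := by
      push_cast
      rw [← Complex.mul_conj', ← Complex.mul_conj', ← Complex.mul_conj', map_add, ← h3]
      ring
    exact_mod_cast h12
  linarith

end E9B

section

variable {H : Type*} [NormedAddCommGroup H] [InnerProductSpace ℂ H] [CompleteSpace H]

theorem second_slot_two (hH : Dim2 H) (hH' : ¬ Dim3 H) {T : H →L[ℂ] H} {μ : ℂ}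
    (h : ∀ x y : H, ‖x‖ = 1 → ‖y‖ = 1 → inner ℂ x y = (0 : ℂ) →
      sr (skb (po x y) T) = sr (skb (po x y) (T + μ • (1 : H →L[ℂ] H)))) :
    μ = 0 ∨ ∃ η : ℂ, ‖η‖ = 1 ∧ T + μ • (1 : H →L[ℂ] H) = η • adjoint T := by
  by_cases hμ : μ = 0
  · exact Or.inl hμ
  right
  have hn := E9B.finrank_two hH hH'
  have hfd : FiniteDimensional ℂ H := FiniteDimensional.of_finrank_pos (by omega)
  have hcμ : conj μ ≠ 0 := by rwa [Ne, map_eq_zero]
  set B : H →L[ℂ] H := conj μ • T + μ • adjoint T with hBdef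
  have hBsa : IsSelfAdjoint B := by
    rw [ContinuousLinearMap.isSelfAdjoint_iff', hBdef, map_add, LinearIsometryEquiv.map_smulₛₗ,
      LinearIsometryEquiv.map_smulₛₗ, ContinuousLinearMap.adjoint_adjoint, add_comm]
    simp
  have hBs : (B : H →ₗ[ℂ] H).IsSymmetric := hBsa.isSymmetric
  let b := hBs.eigenvectorBasis hn
  have hb : ∀ i, B (b i) = ((hBs.eigenvalues hn i : ℝ) : ℂ) • b i := fun i =>
    hBs.apply_eigenvectorBasis hn i
  have hspan : ∀ z : H, z = inner ℂ (b 0) z • b 0 + inner ℂ (b 1) z • b 1 := by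
    intro z
    have := b.sum_repr' z
    rw [Fin.sum_univ_two] at this
    exact this.symm
  have h01 : inner ℂ (b 0) (b 1) = (0 : ℂ) := b.orthonormal.2 (by decide)
  have h10 : inner ℂ (b 1) (b 0) = (0 : ℂ) := b.orthonormal.2 (by decide)
  have e1 : hBs.eigenvalues hn 1 = -(‖μ‖ ^ 2) :=
    E9B.diag hμ h (b.orthonormal.1 0) (b.orthonormal.1 1) h01 hspan (hb 1)
  have e0 : hBs.eigenvalues hn 0 = -(‖μ‖ ^ 2) :=
    E9B.diag hμ h (b.orthonormal.1 1) (b.orthonormal.1 0) h10
      (fun z => by rw [add_comm]; exact hspan z) (hb 0)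
  have hB : B = (-(‖μ‖ ^ 2 : ℝ) : ℂ) • (1 : H →L[ℂ] H) := by
    ext z
    rw [hspan z, map_add, map_smul, map_smul, hb, hb, e0, e1]
    simp only [ContinuousLinearMap.smul_apply, ContinuousLinearMap.one_apply]
    push_cast
    module
  refine ⟨-(μ / conj μ), ?_, ?_⟩
  · rw [norm_neg, norm_div, RCLike.norm_conj, div_self (norm_ne_zero_iff.2 hμ)]
  · have h2 : conj μ • (T + μ • (1 : H →L[ℂ] H)) = conj μ • (-(μ / conj μ) • adjoint T) := by
      have h3 : conj μ • T = (-(‖μ‖ ^ 2 : ℝ) : ℂ) • (1 : H →L[ℂ] H) - μ • adjoint T := by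
        rw [← hB, hBdef]
        abel
      rw [smul_add, h3, smul_smul, smul_smul]
      have h4 : conj μ * μ = ((‖μ‖ ^ 2 : ℝ) : ℂ) := by
        rw [← Complex.normSq_eq_conj_mul_self, Complex.normSq_eq_norm_sq]
      have h5 : conj μ * -(μ / conj μ) = -μ := by
        field_simp
      rw [h4, h5]
      module
    exact smul_right_injective _ hcμ h2

end

end PR
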